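import Pool.Agent.Helper77_TF.GL2

/-!
# TF, row EXT: conditionally independent copies
-/

set_option autoImplicit false

namespace Pool.Agent.TF.H77

open Pool.Agent.TF

/-- **EXT**. -/
theorem ext : ExtStmt := by
  intro Ω S T _ P Y K m
  induction m with
  | zero =>
    refine ⟨Ω, inferInstance, P, fun ω => ω, fun _ i => i.elim0, fun _ => rfl,
      fun ω h => h, fun i => i.elim0, ?_⟩
    have : P.H (fun ω => (ω, (fun i : Fin 0 => (i.elim0 : S)))) = P.H (fun ω => ω) := by
      refine H_congr _ fun ω ω' _ _ => ?_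
      constructor
      · intro h3
        exact congrArg Prod.fst h3
      · rintro rfl
        rfl
    rw [this]
    simp
  | succ m ih =>
    obtain ⟨Ω', _, P', π, κ, h1, h2, h3, h4⟩ := ih
    have hY : SameLaw P' (fun ω => Y (π ω)) P Y := sameLaw_comp Y h1
    set Q := glue P' P (fun ω => Y (π ω)) Y hY with hQ
    have hf := glue_fst P' P (fun ω => Y (π ω)) Y hY
    have hs := glue_snd P' P (fun ω => Y (π ω)) Y hY
    have hsu := glue_supp P' P (fun ω => Y (π ω)) Y hY
    refine ⟨Ω' × Ω, inferInstance, Q, fun ω => π ω.1, fun ω => Fin.cons (K ω.2) (κ ω.1),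
      ?_, ?_, ?_, ?_⟩
    · exact sameLaw_trans (sameLaw_comp π hf) h1
    · intro ω hω
      exact h2 _ (hsu ω hω).1
    · intro i
      refine Fin.cases ?_ (fun i => ?_) i
      · simp only [Fin.cons_zero]
        have e1 : SameLaw Q (fun ω => (Y (π ω.1), K ω.2)) Q (fun ω => (Y ω.2, K ω.2)) :=
          sameLaw_ae Q fun ω hω => by rw [(hsu ω hω).2.2]
        exact sameLaw_trans e1 (sameLaw_comp (fun ω => (Y ω, K ω)) hs)
      · simp only [Fin.cons_succ]
        exact sameLaw_trans (sameLaw_comp (fun ω => (Y (π ω), κ ω i)) hf) (h3 i)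
    · have c1 := glue_C P' P (fun ω => Y (π ω)) Y hY (fun ω => (π ω, κ ω)) K
      unfold Law.C at c1
      have c2 : Q.H (fun ω => (((π ω.1, κ ω.1), K ω.2), Y (π ω.1))) =
          Q.H (fun ω => (π ω.1, (Fin.cons (K ω.2) (κ ω.1) : Fin (m + 1) → S))) := by
        refine H_congr _ fun ω ω' _ _ => ?_
        simp only [Prod.mk.injEq, Fin.cons_inj]
        constructor
        · rintro ⟨⟨⟨h5, h6⟩, h7⟩, _⟩
          exact ⟨h5, h7, h6⟩
        · rintro ⟨h5, h7, h6⟩
          exact ⟨⟨⟨h5, h6⟩, h7⟩, by rw [h5]⟩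
      have c3 : P'.H (fun ω => ((π ω, κ ω), Y (π ω))) = P'.H (fun ω => (π ω, κ ω)) := by
        refine H_congr _ fun ω ω' _ _ => ?_
        simp only [Prod.mk.injEq]
        constructor
        · rintro ⟨h5, _⟩
          exact h5
        · rintro h5
          exact ⟨h5, by rw [h5.1]⟩
      have c4 : Q.H (fun ω => Y (π ω.1)) = P'.H (fun ω => Y (π ω)) :=
        H_same (sameLaw_comp (fun ω => Y (π ω)) hf)
      rw [← hQ, c2, c3, c4, h4] at c1
      unfold Law.C
      unfold Law.C at c1
      push_cast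
      linarith

end Pool.Agent.TF.H77
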