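import Pool.Agent.Helper77_TF.SAM

/-!
# TF, row GL2: the conditionally independent coupling
-/

set_option autoImplicit false

namespace Pool.Agent.TF.H77

open Pool.Agent.TF

variable {Ω1 Ω2 S : Type} [Fintype Ω1] [Fintype Ω2]

open Classical in
/-- weights of the coupling -/
noncomputable def gw (P1 : Law Ω1) (P2 : Law Ω2) (X1 : Ω1 → S) (X2 : Ω2 → S) (ω : Ω1 × Ω2) : ℝ :=
  if X1 ω.1 = X2 ω.2 then P1.p ω.1 * P2.p ω.2 / P1.q X1 (X1 ω.1) else 0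

theorem gw_nonneg (P1 : Law Ω1) (P2 : Law Ω2) (X1 : Ω1 → S) (X2 : Ω2 → S) (ω : Ω1 × Ω2) :
    0 ≤ gw P1 P2 X1 X2 ω := by
  classical
  unfold gw
  split_ifs
  · exact div_nonneg (mul_nonneg (P1.nn _) (P2.nn _)) (q_nonneg _ _ _)
  · exact le_refl _

/-- sums of the weights over rectangles -/
theorem gw_rect (P1 : Law Ω1) (P2 : Law Ω2) (X1 : Ω1 → S) (X2 : Ω2 → S) (u : Ω1 → ℝ) (v : Ω2 → ℝ)
    (s : S) [DecidableEq S] :
    (∑ ω : Ω1 × Ω2, if X1 ω.1 = s then u ω.1 * v ω.2 * gw P1 P2 X1 X2 ω else 0) =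
      (∑ ω, if X1 ω = s then u ω * P1.p ω else 0) * (∑ ω, if X2 ω = s then v ω * P2.p ω else 0) /
        P1.q X1 s := by
  classical
  rw [Fintype.sum_prod_type, Finset.sum_mul_sum, Finset.sum_div]
  refine Finset.sum_congr rfl fun ω₁ _ => ?_
  rw [Finset.sum_div]
  refine Finset.sum_congr rfl fun ω₂ _ => ?_
  unfold gw
  by_cases h1 : X1 ω₁ = s
  · by_cases h2 : X2 ω₂ = s
    · simp only [h1, h2, if_true]
      ring
    · have h3 : ¬ (s = X2 ω₂) := fun h => h2 h.symm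
      simp only [h1, h2, h3, if_true, if_false, mul_zero, zero_div]
  · simp only [h1, if_false, zero_mul, zero_div]

theorem gw_fst (P1 : Law Ω1) (P2 : Law Ω2) (X1 : Ω1 → S) (X2 : Ω2 → S)
    (h : SameLaw P1 X1 P2 X2) (ω₁ : Ω1) : ∑ ω₂, gw P1 P2 X1 X2 (ω₁, ω₂) = P1.p ω₁ := by
  classical
  have h1 : ∑ ω₂, gw P1 P2 X1 X2 (ω₁, ω₂) =
      P1.p ω₁ / P1.q X1 (X1 ω₁) * P2.q X2 (X1 ω₁) := by
    unfold Law.q
    rw [Finset.mul_sum]
    refine Finset.sum_congr rfl fun ω₂ _ => ?_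
    unfold gw Law.q
    by_cases h2 : X1 ω₁ = X2 ω₂
    · simp only [h2, if_true]
      ring
    · have h3 : ¬ (X2 ω₂ = X1 ω₁) := fun h => h2 h.symm
      simp only [h2, h3, if_false, mul_zero]
  rw [h1, ← h (X1 ω₁)]
  by_cases h0 : P1.p ω₁ = 0
  · rw [h0]
    simp
  · exact div_mul_cancel₀ _ (ne_of_gt (q_pos P1 X1 h0))

theorem gw_snd (P1 : Law Ω1) (P2 : Law Ω2) (X1 : Ω1 → S) (X2 : Ω2 → S)
    (h : SameLaw P1 X1 P2 X2) (ω₂ : Ω2) : ∑ ω₁, gw P1 P2 X1 X2 (ω₁, ω₂) = P2.p ω₂ := by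
  classical
  have h1 : ∑ ω₁, gw P1 P2 X1 X2 (ω₁, ω₂) =
      P2.p ω₂ / P2.q X2 (X2 ω₂) * P1.q X1 (X2 ω₂) := by
    have h4 : ∀ ω₁, gw P1 P2 X1 X2 (ω₁, ω₂) =
        P2.p ω₂ / P2.q X2 (X2 ω₂) * (if X1 ω₁ = X2 ω₂ then P1.p ω₁ else 0) := by
      intro ω₁
      unfold gw
      by_cases h2 : X1 ω₁ = X2 ω₂
      · simp only [h2, if_true]
        rw [h (X2 ω₂)]
        ring
      · simp only [h2, if_false, mul_zero]
    rw [Finset.sum_congr rfl fun ω₁ _ => h4 ω₁, ← Finset.mul_sum]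
    rfl
  rw [h1, h (X2 ω₂)]
  by_cases h0 : P2.p ω₂ = 0
  · rw [h0]
    simp
  · exact div_mul_cancel₀ _ (ne_of_gt (q_pos P2 X2 h0))

/-- the coupling -/
noncomputable def glue (P1 : Law Ω1) (P2 : Law Ω2) (X1 : Ω1 → S) (X2 : Ω2 → S)
    (h : SameLaw P1 X1 P2 X2) : Law (Ω1 × Ω2) where
  p := gw P1 P2 X1 X2
  nn := gw_nonneg P1 P2 X1 X2
  one := by
    rw [Fintype.sum_prod_type, Finset.sum_congr rfl fun ω₁ _ => gw_fst P1 P2 X1 X2 h ω₁]
    exact P1.one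

theorem glue_fst (P1 : Law Ω1) (P2 : Law Ω2) (X1 : Ω1 → S) (X2 : Ω2 → S)
    (h : SameLaw P1 X1 P2 X2) :
    SameLaw (glue P1 P2 X1 X2 h) (fun ω => ω.1) P1 (fun ω => ω) := by
  classical
  intro s
  unfold Law.q
  rw [Fintype.sum_prod_type]
  refine Finset.sum_congr rfl fun ω₁ _ => ?_
  by_cases h1 : ω₁ = s
  · simp only [h1, if_true]
    exact gw_fst P1 P2 X1 X2 h s
  · simp only [h1, if_false, Finset.sum_const_zero]

theorem glue_snd (P1 : Law Ω1) (P2 : Law Ω2) (X1 : Ω1 → S) (X2 : Ω2 → S)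
    (h : SameLaw P1 X1 P2 X2) :
    SameLaw (glue P1 P2 X1 X2 h) (fun ω => ω.2) P2 (fun ω => ω) := by
  classical
  intro s
  unfold Law.q
  rw [Fintype.sum_prod_type_right]
  refine Finset.sum_congr rfl fun ω₂ _ => ?_
  by_cases h1 : ω₂ = s
  · simp only [h1, if_true]
    exact gw_snd P1 P2 X1 X2 h s
  · simp only [h1, if_false, Finset.sum_const_zero]

theorem glue_supp (P1 : Law Ω1) (P2 : Law Ω2) (X1 : Ω1 → S) (X2 : Ω2 → S)
    (h : SameLaw P1 X1 P2 X2) (ω : Ω1 × Ω2) (hω : (glue P1 P2 X1 X2 h).p ω ≠ 0) :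
    P1.p ω.1 ≠ 0 ∧ P2.p ω.2 ≠ 0 ∧ X1 ω.1 = X2 ω.2 := by
  classical
  change gw P1 P2 X1 X2 ω ≠ 0 at hω
  unfold gw at hω
  by_cases h1 : X1 ω.1 = X2 ω.2
  · rw [if_pos h1] at hω
    refine ⟨fun h0 => hω ?_, fun h0 => hω ?_, h1⟩
    · rw [h0]; simp
    · rw [h0]; simp
  · rw [if_neg h1] at hω
    exact absurd rfl hω

/-- the joint law -/
theorem glue_q {A B : Type} (P1 : Law Ω1) (P2 : Law Ω2) (X1 : Ω1 → S) (X2 : Ω2 → S)
    (h : SameLaw P1 X1 P2 X2) (f : Ω1 → A) (g : Ω2 → B) (a : A) (b : B) (s : S) :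
    (glue P1 P2 X1 X2 h).q (fun ω => ((f ω.1, g ω.2), X1 ω.1)) ((a, b), s) =
      P1.q (fun ω => (f ω, X1 ω)) (a, s) * P2.q (fun ω => (g ω, X2 ω)) (b, s) / P1.q X1 s := by
  classical
  have h1 := gw_rect P1 P2 X1 X2 (fun ω => if f ω = a then 1 else 0)
    (fun ω => if g ω = b then 1 else 0) s
  have e1 : (glue P1 P2 X1 X2 h).q (fun ω => ((f ω.1, g ω.2), X1 ω.1)) ((a, b), s) =
      ∑ ω : Ω1 × Ω2, if X1 ω.1 = s then (if f ω.1 = a then 1 else 0) *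
        (if g ω.2 = b then 1 else 0) * gw P1 P2 X1 X2 ω else 0 := by
    unfold Law.q
    refine Finset.sum_congr rfl fun ω _ => ?_
    simp only [Prod.mk.injEq]
    by_cases h2 : f ω.1 = a <;> by_cases h3 : g ω.2 = b <;> by_cases h4 : X1 ω.1 = s <;>
      simp [h2, h3, h4, glue]
  have e2 : P1.q (fun ω => (f ω, X1 ω)) (a, s) =
      ∑ ω, if X1 ω = s then (if f ω = a then 1 else 0) * P1.p ω else 0 := by
    unfold Law.q
    refine Finset.sum_congr rfl fun ω _ => ?_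
    simp only [Prod.mk.injEq]
    by_cases h2 : f ω = a <;> by_cases h4 : X1 ω = s <;> simp [h2, h4]
  have e3 : P2.q (fun ω => (g ω, X2 ω)) (b, s) =
      ∑ ω, if X2 ω = s then (if g ω = b then 1 else 0) * P2.p ω else 0 := by
    unfold Law.q
    refine Finset.sum_congr rfl fun ω _ => ?_
    simp only [Prod.mk.injEq]
    by_cases h2 : g ω = b <;> by_cases h4 : X2 ω = s <;> simp [h2, h4]
  rw [e1, e2, e3]
  exact h1

/-- conditional independence -/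
theorem glue_C {A B : Type} (P1 : Law Ω1) (P2 : Law Ω2) (X1 : Ω1 → S) (X2 : Ω2 → S)
    (h : SameLaw P1 X1 P2 X2) (f : Ω1 → A) (g : Ω2 → B) :
    (glue P1 P2 X1 X2 h).C (fun ω => (f ω.1, g ω.2)) (fun ω => X1 ω.1) =
      P1.C f X1 + P2.C g X2 := by
  set P := glue P1 P2 X1 X2 h with hP
  have hH : P.H (fun ω => ((f ω.1, g ω.2), X1 ω.1)) = P1.H (fun ω => (f ω, X1 ω)) +
      P2.H (fun ω => (g ω, X2 ω)) - P1.H X1 := by
    have e1 : P.E (fun ω => Real.log (P.q (fun ω => ((f ω.1, g ω.2), X1 ω.1))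
          ((f ω.1, g ω.2), X1 ω.1))) =
        P.E (fun ω => Real.log (P1.q (fun ω => (f ω, X1 ω)) (f ω.1, X1 ω.1))) +
        P.E (fun ω => Real.log (P2.q (fun ω => (g ω, X2 ω)) (g ω.2, X2 ω.2))) -
        P.E (fun ω => Real.log (P1.q X1 (X1 ω.1))) := by
      rw [← E_add, ← E_sub]
      refine E_congr P fun ω hω => ?_
      obtain ⟨h1, h2, h3⟩ := glue_supp P1 P2 X1 X2 h ω hω
      rw [hP, glue_q, h3]
      have p1 := q_pos P1 (fun ω => (f ω, X1 ω)) h1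
      have p2 := q_pos P2 (fun ω => (g ω, X2 ω)) h2
      have p3 := q_pos P1 X1 h1
      simp only [h3] at p1 p3
      rw [Real.log_div (mul_ne_zero (ne_of_gt p1) (ne_of_gt p2)) (ne_of_gt p3),
        Real.log_mul (ne_of_gt p1) (ne_of_gt p2)]
    rw [H_eq_E, e1]
    have e2 : P.E (fun ω => Real.log (P1.q (fun ω => (f ω, X1 ω)) (f ω.1, X1 ω.1))) =
        - P1.H (fun ω => (f ω, X1 ω)) := by
      rw [H_eq_E, neg_neg]
      exact E_same (glue_fst P1 P2 X1 X2 h)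
        (fun ω => Real.log (P1.q (fun ω => (f ω, X1 ω)) (f ω, X1 ω)))
    have e3 : P.E (fun ω => Real.log (P2.q (fun ω => (g ω, X2 ω)) (g ω.2, X2 ω.2))) =
        - P2.H (fun ω => (g ω, X2 ω)) := by
      rw [H_eq_E, neg_neg]
      exact E_same (glue_snd P1 P2 X1 X2 h)
        (fun ω => Real.log (P2.q (fun ω => (g ω, X2 ω)) (g ω, X2 ω)))
    have e4 : P.E (fun ω => Real.log (P1.q X1 (X1 ω.1))) = - P1.H X1 := by
      rw [H_eq_E, neg_neg]
      exact E_same (glue_fst P1 P2 X1 X2 h) (fun ω => Real.log (P1.q X1 (X1 ω)))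
    rw [e2, e3, e4]
    ring
  have hX : P.H (fun ω => X1 ω.1) = P1.H X1 :=
    H_same (sameLaw_comp X1 (glue_fst P1 P2 X1 X2 h))
  unfold Law.C
  rw [hH, hX, H_same h]
  ring

/-- **GL2**. -/
theorem gl2 : Gl2Stmt := by
  intro Ω1 Ω2 S _ _ P1 P2 X1 X2 h
  refine ⟨glue P1 P2 X1 X2 h, glue_fst P1 P2 X1 X2 h, glue_snd P1 P2 X1 X2 h,
    glue_supp P1 P2 X1 X2 h, ?_, fun A B f g => glue_C P1 P2 X1 X2 h f g⟩
  have h1 := glue_C P1 P2 X1 X2 h (fun ω => ω) (fun ω => ω)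
  unfold Law.C at h1
  have h2 : (glue P1 P2 X1 X2 h).H (fun ω => ((ω.1, ω.2), X1 ω.1)) =
      (glue P1 P2 X1 X2 h).H (fun ω => ω) := by
    refine H_congr _ fun ω ω' _ _ => ?_
    constructor
    · intro h3
      have := congrArg Prod.fst h3
      exact this
    · rintro rfl
      rfl
  have h3 : P1.H (fun ω => (ω, X1 ω)) = P1.H (fun ω => ω) := by
    refine H_congr _ fun ω ω' _ _ => ?_
    constructor
    · intro h3
      exact congrArg Prod.fst h3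
    · rintro rfl
      rfl
  have h4 : P2.H (fun ω => (ω, X2 ω)) = P2.H (fun ω => ω) := by
    refine H_congr _ fun ω ω' _ _ => ?_
    constructor
    · intro h3
      exact congrArg Prod.fst h3
    · rintro rfl
      rfl
  have hX : (glue P1 P2 X1 X2 h).H (fun ω => X1 ω.1) = P1.H X1 :=
    H_same (sameLaw_comp X1 (glue_fst P1 P2 X1 X2 h))
  have h5 := H_same h
  rw [h2, h3, h4, hX, ← h5] at h1
  linarith

end Pool.Agent.TF.H77
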