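import Pool.Agent.TF.Stmts

/-!
# TF, row SAM and basic tools on finite laws
-/

set_option autoImplicit false

namespace Pool.Agent.TF.H77

open Pool.Agent.TF

variable {Ω Ω' : Type} [Fintype Ω] [Fintype Ω']

theorem q_nonneg {S : Type} (P : Law Ω) (X : Ω → S) (s : S) : 0 ≤ P.q X s := by
  classical
  unfold Law.q
  refine Finset.sum_nonneg fun ω _ => ?_
  split_ifs
  · exact P.nn ω
  · exact le_refl _

theorem le_q {S : Type} (P : Law Ω) (X : Ω → S) (ω : Ω) : P.p ω ≤ P.q X (X ω) := by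
  classical
  unfold Law.q
  have h : ∀ ω' ∈ Finset.univ, 0 ≤ (if X ω' = X ω then P.p ω' else 0) := by
    intro ω' _
    split_ifs
    · exact P.nn ω'
    · exact le_refl _
  have := Finset.single_le_sum h (Finset.mem_univ ω)
  simpa using this

theorem q_pos {S : Type} (P : Law Ω) (X : Ω → S) {ω : Ω} (h : P.p ω ≠ 0) : 0 < P.q X (X ω) :=
  lt_of_lt_of_le (lt_of_le_of_ne (P.nn ω) (Ne.symm h)) (le_q P X ω)

/-- the expectation of a function of `X` -/
theorem E_eq {S : Type} [DecidableEq S] (P : Law Ω) (X : Ω → S) (g : S → ℝ) (T : Finset S)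
    (hT : ∀ ω, X ω ∈ T) : P.E (fun ω => g (X ω)) = ∑ s ∈ T, P.q X s * g s := by
  classical
  have h1 : ∀ s ∈ T, P.q X s * g s = ∑ ω, if X ω = s then P.p ω * g s else 0 := by
    intro s _
    unfold Law.q
    rw [Finset.sum_mul]
    refine Finset.sum_congr rfl fun ω _ => ?_
    by_cases h : X ω = s
    · rw [if_pos h, if_pos h]
    · rw [if_neg h, if_neg h, zero_mul]
  rw [Finset.sum_congr rfl h1, Finset.sum_comm]
  unfold Law.E
  refine Finset.sum_congr rfl fun ω _ => ?_
  rw [Finset.sum_ite_eq, if_pos (hT ω)]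

/-- equality of expectations -/
theorem E_same {S : Type} {P : Law Ω} {P' : Law Ω'} {X : Ω → S} {X' : Ω' → S}
    (h : SameLaw P X P' X') (g : S → ℝ) :
    P.E (fun ω => g (X ω)) = P'.E (fun ω => g (X' ω)) := by
  classical
  rw [E_eq P X g (Finset.univ.image X ∪ Finset.univ.image X')
      (fun ω => Finset.mem_union_left _ (Finset.mem_image_of_mem _ (Finset.mem_univ _))),
    E_eq P' X' g (Finset.univ.image X ∪ Finset.univ.image X')
      (fun ω => Finset.mem_union_right _ (Finset.mem_image_of_mem _ (Finset.mem_univ _)))]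
  exact Finset.sum_congr rfl fun s _ => by rw [h s]

theorem q_eq_E {S : Type} [DecidableEq S] (P : Law Ω) (X : Ω → S) (s : S) :
    P.q X s = P.E (fun ω => if X ω = s then 1 else 0) := by
  unfold Law.q Law.E
  refine Finset.sum_congr rfl fun ω _ => ?_
  by_cases h : X ω = s <;> simp [h]

theorem sameLaw_comp {S T : Type} {P : Law Ω} {P' : Law Ω'} {X : Ω → S} {X' : Ω' → S}
    (f : S → T) (h : SameLaw P X P' X') :
    SameLaw P (fun ω => f (X ω)) P' (fun ω => f (X' ω)) := by
  classical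
  intro t
  rw [q_eq_E P (fun ω => f (X ω)) t, q_eq_E P' (fun ω => f (X' ω)) t]
  exact E_same h (fun s => if f s = t then 1 else 0)

theorem H_eq_E {S : Type} (P : Law Ω) (X : Ω → S) :
    P.H X = - P.E (fun ω => Real.log (P.q X (X ω))) := rfl

theorem H_same {S : Type} {P : Law Ω} {P' : Law Ω'} {X : Ω → S} {X' : Ω' → S}
    (h : SameLaw P X P' X') : P.H X = P'.H X' := by
  rw [H_eq_E, H_eq_E, E_same h (fun s => Real.log (P.q X s))]
  have : (fun s => P.q X s) = fun s => P'.q X' s := funext h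
  simp only [h _]

theorem C_same {S T U : Type} {P : Law Ω} {P' : Law Ω'} {X : Ω → S} {X' : Ω' → S}
    (f : S → T) (g : S → U) (h : SameLaw P X P' X') :
    P.C (fun ω => f (X ω)) (fun ω => g (X ω)) =
      P'.C (fun ω => f (X' ω)) (fun ω => g (X' ω)) := by
  unfold Law.C
  rw [H_same (sameLaw_comp (fun s => (f s, g s)) h), H_same (sameLaw_comp g h)]

theorem support_same {S : Type} {P : Law Ω} {P' : Law Ω'} {X : Ω → S} {X' : Ω' → S}
    (h : SameLaw P X P' X') (ω : Ω) (hω : P.p ω ≠ 0) : ∃ ω', P'.p ω' ≠ 0 ∧ X' ω' = X ω := by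
  classical
  have h1 : 0 < P'.q X' (X ω) := by
    rw [← h (X ω)]
    exact q_pos P X hω
  unfold Law.q at h1
  obtain ⟨ω', _, h2⟩ := Finset.exists_ne_zero_of_sum_ne_zero (ne_of_gt h1)
  refine ⟨ω', ?_, ?_⟩
  · intro h0
    apply h2
    split_ifs
    · exact h0
    · rfl
  · by_contra h0
    exact h2 (if_neg h0)

/-- **SAM**. -/
theorem sam : SamStmt := by
  refine ⟨?_, ?_, ?_, ?_, ?_⟩
  · intro Ω Ω' S T _ _ P P' X X' f h
    exact sameLaw_comp f h
  · intro Ω Ω' S _ _ P P' X X' h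
    exact H_same h
  · intro Ω Ω' S T U _ _ P P' X X' f g h
    exact C_same f g h
  · intro Ω Ω' S _ _ P P' X X' f h
    exact E_same h f
  · intro Ω Ω' S _ _ P P' X X' h ω hω
    exact support_same h ω hω

/-! more tools -/

theorem sameLaw_symm {S : Type} {P : Law Ω} {P' : Law Ω'} {X : Ω → S} {X' : Ω' → S}
    (h : SameLaw P X P' X') : SameLaw P' X' P X := fun s => (h s).symm

theorem sameLaw_trans {Ω'' S : Type} [Fintype Ω''] {P : Law Ω} {P' : Law Ω'} {P'' : Law Ω''}
    {X : Ω → S} {X' : Ω' → S} {X'' : Ω'' → S}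
    (h : SameLaw P X P' X') (h' : SameLaw P' X' P'' X'') : SameLaw P X P'' X'' :=
  fun s => (h s).trans (h' s)

/-- almost surely equal variables -/
theorem sameLaw_ae {S : Type} (P : Law Ω) {X X' : Ω → S} (h : ∀ ω, P.p ω ≠ 0 → X ω = X' ω) :
    SameLaw P X P X' := by
  classical
  intro s
  unfold Law.q
  refine Finset.sum_congr rfl fun ω _ => ?_
  by_cases h0 : P.p ω = 0
  · simp [h0]
  · rw [h ω h0]

theorem E_congr (P : Law Ω) {f g : Ω → ℝ} (h : ∀ ω, P.p ω ≠ 0 → f ω = g ω) : P.E f = P.E g := by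
  unfold Law.E
  refine Finset.sum_congr rfl fun ω _ => ?_
  by_cases h0 : P.p ω = 0
  · simp [h0]
  · rw [h ω h0]

/-- variables which determine each other on the support have the same entropy -/
theorem H_congr {S T : Type} (P : Law Ω) {X : Ω → S} {Y : Ω → T}
    (h : ∀ ω ω', P.p ω ≠ 0 → P.p ω' ≠ 0 → (X ω = X ω' ↔ Y ω = Y ω')) : P.H X = P.H Y := by
  classical
  rw [H_eq_E, H_eq_E]
  congr 1
  refine E_congr P fun ω hω => ?_
  congr 1
  unfold Law.q
  refine Finset.sum_congr rfl fun ω' _ => ?_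
  by_cases h0 : P.p ω' = 0
  · simp [h0]
  · have := h ω' ω h0 hω
    by_cases h1 : X ω' = X ω
    · rw [if_pos h1, if_pos (this.1 h1)]
    · rw [if_neg h1, if_neg (fun h2 => h1 (this.2 h2))]

theorem E_add (P : Law Ω) (f g : Ω → ℝ) : P.E (fun ω => f ω + g ω) = P.E f + P.E g := by
  unfold Law.E
  rw [← Finset.sum_add_distrib]
  exact Finset.sum_congr rfl fun ω _ => by ring

theorem E_neg (P : Law Ω) (f : Ω → ℝ) : P.E (fun ω => - f ω) = - P.E f := by
  unfold Law.E
  rw [← Finset.sum_neg_distrib]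
  exact Finset.sum_congr rfl fun ω _ => by ring

theorem E_sub (P : Law Ω) (f g : Ω → ℝ) : P.E (fun ω => f ω - g ω) = P.E f - P.E g := by
  unfold Law.E
  rw [← Finset.sum_sub_distrib]
  exact Finset.sum_congr rfl fun ω _ => by ring

theorem q_id (P : Law Ω) (ω : Ω) : P.q (fun ω => ω) ω = P.p ω := by
  classical
  unfold Law.q
  simp

end Pool.Agent.TF.H77
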